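import Mathlib

/-!
# Generic ideals in the square-free algebra: two linear forms

Over every infinite field `K` and for every odd `n = 2 k + 1 ≥ 7`, the quotient of the square-free
algebra `K[x_1, …, x_n] / (x_1 ^ 2, …, x_n ^ 2)` by two generic linear forms `ℓ = ∑ a_m x_m`,
`ℓ' = ∑ b_m x_m` does not have the Hilbert series `⟨(1 + t) ^ n (1 - t) ^ 2⟩`: the coefficient of
`t ^ k` in the truncated series is zero, but the quotient is not zero in degree `k`.

Idea. Let `w_m` be the vector of the `k` monomials of degree `k - 1` in `a_m, b_m`, and `v_m` the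
vector of the `k + 1` monomials of degree `k`. The determinant `G(x)` of the square matrix with the
columns `(x_m w_m, v_m)`, `m = 1, …, n`, is a square-free form of degree `k` in `x_1, …, x_n`, and
it is killed by `∑ a_m ∂_m` and `∑ b_m ∂_m`, since the entries of `a_m w_m` and of `b_m w_m` are
entries of `v_m`. Hence `G` is in the inverse system of the ideal. (For `k = 3` this is the cubic
secant variety of the rational normal quartic through seven points of four-space.)
-/

set_option autoImplicit false

open MvPolynomial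

universe u

namespace Pool.Agent.Results.MP_3acc10_al.TwoLinearForms

/-! ## Definitions -/

/-- The ideal `(x_1 ^ 2, …, x_n ^ 2)` of `K[x_1, …, x_n]`; the square-free algebra is the quotient
`K[x_1, …, x_n] / (x_1 ^ 2, …, x_n ^ 2)`. -/
noncomputable def sqIdeal (K : Type u) [Field K] (n : ℕ) : Ideal (MvPolynomial (Fin n) K) :=
  Ideal.span (Set.range fun i : Fin n => (X i : MvPolynomial (Fin n) K) ^ 2)

/-- The index set of the coefficients of forms `f_1, …, f_r` of degrees `d_1, …, d_r` of the
square-free algebra: the pairs of `i` and a square-free monomial of degree `d_i`, that is, a set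
of `d_i` variables. -/
abbrev CoeffIdx (n : ℕ) {r : ℕ} (d : Fin r → ℕ) : Type :=
  Σ i : Fin r, {T : Finset (Fin n) // T.card = d i}

/-- The form `f_i` of degree `d_i` with the coefficient vector `c` (a representative in
`K[x_1, …, x_n]` of the element of the square-free algebra). -/
noncomputable def form {K : Type u} [Field K] {n r : ℕ} {d : Fin r → ℕ}
    (c : CoeffIdx n d → K) (i : Fin r) : MvPolynomial (Fin n) K :=
  ∑ T : {T : Finset (Fin n) // T.card = d i}, C (c ⟨i, T⟩) * ∏ j ∈ T.1, X j

/-- The ideal `(x_1 ^ 2, …, x_n ^ 2, f_1, …, f_r)` of `K[x_1, …, x_n]`: the quotient by it is the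
quotient of the square-free algebra by the ideal `(f_1, …, f_r)`. -/
noncomputable def idealOf {K : Type u} [Field K] {n r : ℕ} {d : Fin r → ℕ}
    (c : CoeffIdx n d → K) : Ideal (MvPolynomial (Fin n) K) :=
  sqIdeal K n ⊔ Ideal.span (Set.range (form c))

/-- The dimension of the degree `j` part of `K[x_1, …, x_n] / I`: the dimension of the image of the
space of homogeneous polynomials of degree `j`. -/
noncomputable def hilb {K : Type u} [Field K] {n : ℕ} (I : Ideal (MvPolynomial (Fin n) K))
    (j : ℕ) : ℕ :=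
  Module.finrank K ((homogeneousSubmodule (Fin n) K j).map (Ideal.Quotient.mkₐ K I).toLinearMap)

/-- The coefficient of `t ^ j` in the truncation `⟨∑ a_i t ^ i⟩`: it is `a_j` if `a_i > 0` for all
`i ≤ j`, and zero otherwise. -/
noncomputable def truncCoeff (a : ℕ → ℤ) (j : ℕ) : ℤ :=
  open Classical in if ∀ i ≤ j, 0 < a i then a j else 0

/-- The coefficient of `t ^ j` in `(1 + t) ^ n (1 - t ^ d_1) ⋯ (1 - t ^ d_r)`. -/
noncomputable def expected (n : ℕ) {r : ℕ} (d : Fin r → ℕ) (j : ℕ) : ℤ :=
  (((1 + Polynomial.X) ^ n * ∏ i, (1 - Polynomial.X ^ d i) : Polynomial ℤ)).coeff j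

/-- Generic ideals generated in degrees `d_1, …, d_r` have the predicted Hilbert series: for all
coefficient vectors in some nonempty Zariski-open set (which we may take to be the set where a
nonzero polynomial `P` does not vanish) the Hilbert series of the quotient is
`⟨(1 + t) ^ n (1 - t ^ d_1) ⋯ (1 - t ^ d_r)⟩`. -/
def GenericSeries (K : Type u) [Field K] (n : ℕ) {r : ℕ} (d : Fin r → ℕ) : Prop :=
  ∃ P : MvPolynomial (CoeffIdx n d) K, P ≠ 0 ∧
    ∀ c : CoeffIdx n d → K, eval c P ≠ 0 →
      ∀ j : ℕ, (hilb (idealOf c) j : ℤ) = truncCoeff (expected n d) j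

/-! ## The determinants -/

section det

variable {R : Type*} [CommRing R] (k : ℕ)

/-- the numbering of the variables -/
def e : Fin k ⊕ Fin (k + 1) ≃ Fin (2 * k + 1) :=
  finSumFinEquiv.trans (finCongr (by ring))

/-- the vector `w_m` -/
def w (a b : Fin (2 * k + 1) → R) (m : Fin (2 * k + 1)) (j : Fin k) : R :=
  a m ^ (k - 1 - (j : ℕ)) * b m ^ (j : ℕ)

/-- the vector `v_m` -/
def v (a b : Fin (2 * k + 1) → R) (m : Fin (2 * k + 1)) (j : Fin (k + 1)) : R :=
  a m ^ (k - (j : ℕ)) * b m ^ (j : ℕ)

theorem a_mul_w (a b : Fin (2 * k + 1) → R) (m : Fin (2 * k + 1)) (j : Fin k) :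
    a m * w k a b m j = v k a b m j.castSucc := by
  have h : k - (j : ℕ) = (k - 1 - (j : ℕ)) + 1 := by have := j.2; omega
  rw [w, v, Fin.val_castSucc, h, pow_succ]
  ring

theorem b_mul_w (a b : Fin (2 * k + 1) → R) (m : Fin (2 * k + 1)) (j : Fin k) :
    b m * w k a b m j = v k a b m j.succ := by
  have h : k - ((j : ℕ) + 1) = k - 1 - (j : ℕ) := by omega
  rw [w, v, Fin.val_succ, h, pow_succ]
  ring

/-- the matrix with the columns `(w_m, 0)` for `m` in `T` and `(0, v_m)` for the other `m` -/
def B (a b : Fin (2 * k + 1) → R) (T : Finset (Fin (2 * k + 1))) :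
    Matrix (Fin (2 * k + 1)) (Fin (2 * k + 1)) R :=
  fun p m => Sum.elim (fun j => if m ∈ T then w k a b m j else 0)
    (fun j => if m ∈ T then 0 else v k a b m j) ((e k).symm p)

/-- the coefficients of the form `G` -/
def g (a b : Fin (2 * k + 1) → R) (T : Finset (Fin (2 * k + 1))) : R := (B k a b T).det

/-- `(0, v) ↦ (P v, 0)` -/
def N (s : Fin k → Fin (k + 1)) : Matrix (Fin (2 * k + 1)) (Fin (2 * k + 1)) R :=
  fun p q => Sum.elim (fun j => Sum.elim (fun _ => 0) (fun j' => if j' = s j then 1 else 0)
    ((e k).symm q)) (fun _ => 0) ((e k).symm p)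

theorem trace_N (s : Fin k → Fin (k + 1)) : (N k s : Matrix _ _ R).trace = 0 := by
  rw [Matrix.trace]
  refine Finset.sum_eq_zero fun p _ => ?_
  rw [Matrix.diag_apply, N]
  rcases (e k).symm p with j | j <;> simp

theorem sum_det_update {ι : Type*} [Fintype ι] [DecidableEq ι] (M N : Matrix ι ι R) :
    ∑ m, (M.updateCol m (N.mulVec (fun p => M p m))).det = N.trace * M.det := by
  have h : ∀ m, (M.updateCol m (N.mulVec (fun p => M p m))).det =
      (M.adjugate * N * M) m m := by
    intro m
    rw [← Matrix.cramer_apply, Matrix.cramer_eq_adjugate_mulVec, Matrix.mulVec_mulVec,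
      Matrix.mul_apply]
    rfl
  simp_rw [h]
  have h2 : ∑ m, (M.adjugate * N * M) m m = (M.adjugate * N * M).trace := rfl
  rw [h2, Matrix.trace_mul_comm, ← Matrix.mul_assoc, Matrix.mul_adjugate, Matrix.smul_mul,
    Matrix.one_mul, Matrix.trace_smul, smul_eq_mul, mul_comm]

theorem N_mulVec_of_mem (s : Fin k → Fin (k + 1)) (a b : Fin (2 * k + 1) → R)
    (U : Finset (Fin (2 * k + 1))) (m : Fin (2 * k + 1)) (hm : m ∈ U) :
    (N k s).mulVec (fun p => B k a b U p m) = 0 := by
  funext p
  rw [Matrix.mulVec, dotProduct, Pi.zero_apply]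
  refine Finset.sum_eq_zero fun q _ => ?_
  rw [N, B]
  rcases (e k).symm p with j | j
  · rcases (e k).symm q with j' | j'
    · simp
    · simp [hm]
  · simp

theorem N_mulVec_of_notMem (s : Fin k → Fin (k + 1)) (a b t : Fin (2 * k + 1) → R)
    (hs : ∀ m j, t m * w k a b m j = v k a b m (s j))
    (U : Finset (Fin (2 * k + 1))) (m : Fin (2 * k + 1)) (hm : m ∉ U) :
    (N k s).mulVec (fun p => B k a b U p m) =
      t m • (fun p => B k a b (insert m U) p m) := by
  funext p
  rw [Matrix.mulVec, dotProduct, Pi.smul_apply, smul_eq_mul]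
  rw [← (e k).sum_comp, Fintype.sum_sum_type]
  simp only [N, B, Equiv.symm_apply_apply, Sum.elim_inl, Sum.elim_inr, if_neg hm,
    Finset.mem_insert_self, if_true]
  rcases (e k).symm p with j | j
  · simp [hs]
  · simp

theorem relation (s : Fin k → Fin (k + 1)) (a b t : Fin (2 * k + 1) → R)
    (hs : ∀ m j, t m * w k a b m j = v k a b m (s j)) (U : Finset (Fin (2 * k + 1))) :
    ∑ m ∈ Finset.univ.filter (fun m => m ∉ U), t m * g k a b (insert m U) = 0 := by
  have h := sum_det_update (B k a b U) (N k s)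
  rw [trace_N, zero_mul] at h
  rw [← h, Finset.sum_filter]
  refine Finset.sum_congr rfl fun m _ => ?_
  by_cases hm : m ∈ U
  · rw [if_neg (not_not.2 hm), N_mulVec_of_mem k s a b U m hm]
    symm
    apply Matrix.det_eq_zero_of_column_eq_zero m
    intro i
    rw [Matrix.updateCol_self, Pi.zero_apply]
  · rw [if_pos hm, N_mulVec_of_notMem k s a b t hs U m hm, Matrix.det_updateCol_smul, g]
    congr 2
    ext p q
    by_cases hq : q = m
    · subst hq
      rw [Matrix.updateCol_self]
    · rw [Matrix.updateCol_ne hq, B, B]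
      simp only [Finset.mem_insert, hq, false_or]

theorem map_g {S : Type*} [CommRing S] (f : R →+* S) (a b : Fin (2 * k + 1) → R)
    (T : Finset (Fin (2 * k + 1))) : f (g k a b T) = g k (f ∘ a) (f ∘ b) T := by
  rw [g, g, RingHom.map_det]
  congr 1
  ext p m
  rw [RingHom.mapMatrix_apply, Matrix.map_apply, B, B]
  rcases (e k).symm p with j | j
  · simp only [Sum.elim_inl]
    split_ifs
    · simp [w]
    · simp
  · simp only [Sum.elim_inr]
    split_ifs
    · simp
    · simp [v]

/-- the set of the first `k` variables -/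
def T0 : Finset (Fin (2 * k + 1)) := Finset.univ.filter fun m => ((e k).symm m).isLeft = true

theorem card_T0 : (T0 k).card = k := by
  have h : T0 k = (Finset.univ : Finset (Fin k)).map
      ⟨fun j => e k (Sum.inl j), fun x y h => Sum.inl_injective ((e k).injective h)⟩ := by
    ext m
    rw [T0, Finset.mem_filter, Finset.mem_map]
    constructor
    · rintro ⟨-, h⟩
      obtain ⟨j, hj⟩ := Sum.isLeft_iff.1 h
      refine ⟨j, Finset.mem_univ _, ?_⟩
      show e k (Sum.inl j) = m
      rw [← hj, Equiv.apply_symm_apply]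
    · rintro ⟨j, -, rfl⟩
      refine ⟨Finset.mem_univ _, ?_⟩
      show ((e k).symm (e k (Sum.inl j))).isLeft = true
      rw [Equiv.symm_apply_apply]
      rfl
  rw [h, Finset.card_map, Finset.card_univ, Fintype.card_fin]

theorem g_ne_zero {F : Type*} [Field F] (b : Fin (2 * k + 1) → F) (hb : Function.Injective b) :
    g k (fun _ => 1) b (T0 k) ≠ 0 := by
  have h : (B k (fun _ => 1) b (T0 k)).submatrix (e k) (e k) = Matrix.fromBlocks
      (Matrix.vandermonde (fun j : Fin k => b (e k (Sum.inl j)))).transpose 0 0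
      (Matrix.vandermonde (fun j : Fin (k + 1) => b (e k (Sum.inr j)))).transpose := by
    ext p q
    rw [Matrix.submatrix_apply, B, Equiv.symm_apply_apply]
    rcases p with j | j <;> rcases q with j' | j'
    · simp [T0, w, Matrix.vandermonde_apply]
    · simp [T0]
    · simp [T0]
    · simp [T0, v, Matrix.vandermonde_apply]
  rw [g, ← Matrix.det_submatrix_equiv_self (e k), h, Matrix.det_fromBlocks_zero₂₁,
    Matrix.det_transpose, Matrix.det_transpose]
  refine mul_ne_zero ?_ ?_
  · rw [Matrix.det_vandermonde_ne_zero_iff]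
    exact fun x y h => Sum.inl_injective ((e k).injective (hb h))
  · rw [Matrix.det_vandermonde_ne_zero_iff]
    exact fun x y h => Sum.inr_injective ((e k).injective (hb h))

end det


/-! ## The functional -/

section functional

variable {K : Type u} [Field K] {n : ℕ}

/-- the exponent of a square-free monomial -/
noncomputable def ind (T : Finset (Fin n)) : Fin n →₀ ℕ := ∑ m ∈ T, Finsupp.single m 1

theorem ind_apply (T : Finset (Fin n)) (m : Fin n) : ind T m = if m ∈ T then 1 else 0 := by
  classical
  rw [ind, Finsupp.finsetSum_apply]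
  simp [Finsupp.single_apply]

theorem prod_X (T : Finset (Fin n)) :
    (∏ j ∈ T, X j : MvPolynomial (Fin n) K) = monomial (ind T) 1 := by
  rw [ind, monomial_sum_one]
  rfl

/-- the functional with the given values at the square-free monomials -/
noncomputable def Lam (h : Finset (Fin n) → K) : MvPolynomial (Fin n) K →ₗ[K] K :=
  ∑ T : Finset (Fin n), h T • lcoeff K (ind T)

theorem Lam_apply (h : Finset (Fin n) → K) (p : MvPolynomial (Fin n) K) :
    Lam h p = ∑ T : Finset (Fin n), h T * coeff (ind T) p := by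
  rw [Lam, LinearMap.sum_apply]
  rfl

/-- the ideal of the polynomials whose multiples are killed by the functional -/
noncomputable def J (h : Finset (Fin n) → K) : Ideal (MvPolynomial (Fin n) K) where
  carrier := {p | ∀ q, Lam h (p * q) = 0}
  add_mem' := by
    intro p p' hp hp' q
    rw [add_mul, map_add, hp q, hp' q, add_zero]
  zero_mem' := by
    intro q
    rw [zero_mul, map_zero]
  smul_mem' := by
    intro c p hp q
    rw [smul_eq_mul, mul_assoc, mul_left_comm]
    exact hp _

theorem mem_J (h : Finset (Fin n) → K) (p : MvPolynomial (Fin n) K) :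
    p ∈ J h ↔ ∀ q, Lam h (p * q) = 0 := Iff.rfl

theorem sq_mem (h : Finset (Fin n) → K) (i : Fin n) :
    (X i : MvPolynomial (Fin n) K) ^ 2 ∈ J h := by
  intro q
  rw [Lam_apply]
  refine Finset.sum_eq_zero fun T _ => ?_
  rw [X_pow_eq_monomial, coeff_monomial_mul', if_neg, mul_zero]
  intro hle
  have h1 := hle i
  rw [Finsupp.single_eq_same, ind_apply] at h1
  split_ifs at h1 <;> omega

theorem coeff_X_mul_ind (T : Finset (Fin n)) (m : Fin n) (q : MvPolynomial (Fin n) K) :
    coeff (ind T) (X m * q) = if m ∈ T then coeff (ind (T.erase m)) q else 0 := by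
  classical
  have hX : (X m : MvPolynomial (Fin n) K) = monomial (Finsupp.single m 1) 1 := rfl
  rw [hX, coeff_monomial_mul']
  by_cases hm : m ∈ T
  · have h1 : Finsupp.single m 1 ≤ ind T := by
      rw [Finsupp.single_le_iff, ind_apply, if_pos hm]
    have h2 : ind T - Finsupp.single m 1 = ind (T.erase m) := by
      ext i
      rw [Finsupp.tsub_apply, ind_apply, ind_apply, Finsupp.single_apply]
      by_cases hi : m = i
      · subst hi
        simp [hm]
      · have hi' : i ≠ m := fun h => hi h.symm
        simp [hi, hi']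
    rw [if_pos h1, if_pos hm, h2, one_mul]
  · rw [if_neg hm, if_neg]
    rw [Finsupp.single_le_iff, ind_apply, if_neg hm]
    omega

theorem linear_mem (h : Finset (Fin n) → K) (t : Fin n → K)
    (ht : ∀ U : Finset (Fin n),
      ∑ m ∈ Finset.univ.filter (fun m => m ∉ U), t m * h (insert m U) = 0) :
    (∑ m, C (t m) * X m : MvPolynomial (Fin n) K) ∈ J h := by
  classical
  intro q
  rw [Lam_apply]
  have h1 : ∀ T : Finset (Fin n), h T * coeff (ind T) ((∑ m, C (t m) * X m) * q) =
      ∑ m, if m ∈ T then t m * h T * coeff (ind (T.erase m)) q else 0 := by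
    intro T
    rw [Finset.sum_mul, coeff_sum, Finset.mul_sum]
    refine Finset.sum_congr rfl fun m _ => ?_
    rw [mul_assoc, coeff_C_mul, coeff_X_mul_ind]
    split_ifs
    · ring
    · ring
  simp_rw [h1]
  rw [Finset.sum_comm]
  have h2 : ∀ m : Fin n, (∑ T : Finset (Fin n),
      if m ∈ T then t m * h T * coeff (ind (T.erase m)) q else 0) =
      ∑ U : Finset (Fin n), if m ∉ U then t m * h (insert m U) * coeff (ind U) q else 0 := by
    intro m
    rw [← Finset.sum_filter, ← Finset.sum_filter]
    refine Finset.sum_nbij' (fun T => T.erase m) (fun U => insert m U) ?_ ?_ ?_ ?_ ?_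
    · intro T _
      simp
    · intro U _
      simp
    · intro T hT
      exact Finset.insert_erase (Finset.mem_filter.1 hT).2
    · intro U hU
      exact Finset.erase_insert (Finset.mem_filter.1 hU).2
    · intro T hT
      rw [Finset.insert_erase (Finset.mem_filter.1 hT).2]
  simp_rw [h2]
  rw [Finset.sum_comm]
  refine Finset.sum_eq_zero fun U _ => ?_
  rw [← Finset.sum_filter, ← Finset.sum_mul, ht U, zero_mul]

theorem notMem_J (h : Finset (Fin n) → K) (T : Finset (Fin n)) (hT : h T ≠ 0) :
    (∏ j ∈ T, X j : MvPolynomial (Fin n) K) ∉ J h := by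
  classical
  intro hmem
  have h1 := hmem 1
  rw [mul_one, Lam_apply, prod_X, Finset.sum_eq_single T] at h1
  · rw [coeff_monomial, if_pos rfl, mul_one] at h1
    exact hT h1
  · intro T' _ hne
    rw [coeff_monomial, if_neg, mul_zero]
    intro he
    apply hne
    ext m
    have h2 := DFunLike.congr_fun he m
    rw [ind_apply, ind_apply] at h2
    by_cases h3 : m ∈ T <;> by_cases h4 : m ∈ T' <;> simp_all
  · intro hcon
    exact absurd (Finset.mem_univ _) hcon

theorem finite_hom (j : ℕ) : Module.Finite K (homogeneousSubmodule (Fin n) K j) :=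
  Module.Finite.iff_fg.2 (homogeneousSubmodule_fg (Fin n) K j)

/-- the quotient is not zero in degree `k` if some functional on the square-free monomials of
degree `k` kills the ideal -/
theorem hilb_pos (I : Ideal (MvPolynomial (Fin n) K)) (h : Finset (Fin n) → K)
    (hI : I ≤ J h) (T : Finset (Fin n)) (hT : h T ≠ 0) :
    0 < hilb I T.card := by
  have hfin : Module.Finite K (homogeneousSubmodule (Fin n) K T.card) := finite_hom _
  rw [hilb, Module.finrank_pos_iff, Submodule.nontrivial_iff_ne_bot]
  intro hbot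
  have h1 : (∏ j ∈ T, X j : MvPolynomial (Fin n) K) ∈ homogeneousSubmodule (Fin n) K T.card := by
    rw [mem_homogeneousSubmodule]
    have := IsHomogeneous.prod T (fun j => (X j : MvPolynomial (Fin n) K)) (fun _ => 1)
      (fun j _ => isHomogeneous_X K j)
    rwa [Finset.sum_const, smul_eq_mul, mul_one] at this
  have h2 := Submodule.mem_map_of_mem (f := (Ideal.Quotient.mkₐ K I).toLinearMap) h1
  rw [hbot, Submodule.mem_bot] at h2
  exact notMem_J h T hT (hI (Ideal.Quotient.eq_zero_iff_mem.1 h2))

theorem sqIdeal_le (h : Finset (Fin n) → K) : sqIdeal K n ≤ J h := by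
  rw [sqIdeal, Ideal.span_le]
  rintro _ ⟨i, rfl⟩
  exact sq_mem h i

end functional

/-! ## The expected series -/

theorem expected_eq (k : ℕ) (hk : 2 ≤ k) :
    expected (2 * k + 1) (fun _ : Fin 2 => 1) k =
      ((2 * k + 1).choose k : ℤ) - 2 * ((2 * k + 1).choose (k - 1) : ℤ) +
        ((2 * k + 1).choose (k - 2) : ℤ) := by
  obtain ⟨l, rfl⟩ : ∃ l, k = l + 2 := ⟨k - 2, by omega⟩
  rw [expected]
  have h : ((1 + Polynomial.X) ^ (2 * (l + 2) + 1) *
      ∏ _i : Fin 2, (1 - Polynomial.X ^ 1) : Polynomial ℤ) =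
      (1 + Polynomial.X) ^ (2 * (l + 2) + 1) -
        2 * ((1 + Polynomial.X) ^ (2 * (l + 2) + 1) * Polynomial.X) +
        (1 + Polynomial.X) ^ (2 * (l + 2) + 1) * Polynomial.X ^ 2 := by
    rw [Fin.prod_univ_two]
    ring
  rw [h, Polynomial.coeff_add, Polynomial.coeff_sub]
  have h2 : (2 : Polynomial ℤ) = Polynomial.C 2 := rfl
  rw [h2, Polynomial.coeff_C_mul, Polynomial.coeff_mul_X_pow, Polynomial.coeff_mul_X,
    Polynomial.coeff_one_add_X_pow, Polynomial.coeff_one_add_X_pow,
    Polynomial.coeff_one_add_X_pow]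
  norm_num

theorem expected_nonpos (k : ℕ) (hk : 3 ≤ k) :
    expected (2 * k + 1) (fun _ : Fin 2 => 1) k ≤ 0 := by
  rw [expected_eq k (by omega)]
  obtain ⟨l, rfl⟩ : ∃ l, k = l + 3 := ⟨k - 3, by omega⟩
  have h1 := Nat.choose_succ_right_eq (2 * (l + 3) + 1) (l + 2)
  have h2 := Nat.choose_succ_right_eq (2 * (l + 3) + 1) (l + 1)
  have e1 : l + 2 + 1 = l + 3 := rfl
  have e2 : 2 * (l + 3) + 1 - (l + 2) = l + 5 := by omega
  have e3 : 2 * (l + 3) + 1 - (l + 1) = l + 6 := by omega
  rw [e1, e2] at h1
  rw [e3] at h2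
  have e4 : l + 3 - 1 = l + 2 := rfl
  have e5 : l + 3 - 2 = l + 1 := rfl
  rw [e4, e5]
  have h1' : ((2 * (l + 3) + 1).choose (l + 3) : ℤ) * (l + 3) =
      ((2 * (l + 3) + 1).choose (l + 2) : ℤ) * (l + 5) := by exact_mod_cast h1
  have h2' : ((2 * (l + 3) + 1).choose (l + 2) : ℤ) * (l + 2) =
      ((2 * (l + 3) + 1).choose (l + 1) : ℤ) * (l + 6) := by exact_mod_cast h2
  have h0 : (0 : ℤ) ≤ ((2 * (l + 3) + 1).choose (l + 1) : ℤ) := by positivity
  generalize ((2 * (l + 3) + 1).choose (l + 3) : ℤ) = x at *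
  generalize ((2 * (l + 3) + 1).choose (l + 2) : ℤ) = y at *
  generalize ((2 * (l + 3) + 1).choose (l + 1) : ℤ) = z at *
  have hl : (0 : ℤ) ≤ (l : ℤ) := by positivity
  have h3 : (x - 2 * y + z) * ((l + 3) * (l + 2)) = - (2 * l * z) := by
    have : (x - 2 * y + z) * ((l + 3) * (l + 2)) = (x * (l + 3)) * (l + 2) -
      2 * (y * (l + 2)) * (l + 3) + z * ((l + 3) * (l + 2)) := by ring
    rw [this, h1', h2']
    have : y * ((l : ℤ) + 5) * (l + 2) = (y * (l + 2)) * (l + 5) := by ring
    rw [this, h2']
    ring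
  have h4 : (0 : ℤ) < (l + 3) * (l + 2) := by positivity
  have h5 : - (2 * (l : ℤ) * z) ≤ 0 := by
    have : (0 : ℤ) ≤ 2 * l * z := by positivity
    omega
  by_contra hcon
  push Not at hcon
  have := mul_pos hcon h4
  omega

/-! ## The main result -/

/-- Over every infinite field `K` and for every odd `n = 2 k + 1 ≥ 7`, generic ideals of the
square-free algebra in `n` variables which are generated by two linear forms do not have the
Hilbert series `⟨(1 + t) ^ n (1 - t) ^ 2⟩`. -/
theorem result (K : Type u) [Field K] [Infinite K] (k : ℕ) (hk : 3 ≤ k) :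
    ¬ GenericSeries K (2 * k + 1) (fun _ : Fin 2 => 1) := by
  classical
  rintro ⟨P, hP, hc⟩
  -- the coefficients of the two linear forms
  let idx : Fin 2 → Fin (2 * k + 1) → CoeffIdx (2 * k + 1) (fun _ : Fin 2 => 1) :=
    fun i m => ⟨i, {m}, Finset.card_singleton m⟩
  have hidx : ∀ i i' m m', idx i m = idx i' m' → i = i' ∧ m = m' := by
    intro i i' m m' h
    have h1 := Sigma.mk.inj_iff.1 h
    obtain ⟨rfl, h2⟩ := h1
    have h3 := eq_of_heq h2
    have h4 := congrArg Subtype.val h3
    exact ⟨rfl, Finset.singleton_injective h4⟩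
  let H : MvPolynomial (CoeffIdx (2 * k + 1) (fun _ : Fin 2 => 1)) K :=
    g k (fun m => X (idx 0 m)) (fun m => X (idx 1 m)) (T0 k)
  have hH : ∀ c : CoeffIdx (2 * k + 1) (fun _ : Fin 2 => 1) → K,
      eval c H = g k (fun m => c (idx 0 m)) (fun m => c (idx 1 m)) (T0 k) := by
    intro c
    rw [map_g]
    congr 1
    · funext m
      simp
    · funext m
      simp
  have hH0 : H ≠ 0 := by
    intro h0
    obtain ⟨f⟩ : Nonempty (Fin (2 * k + 1) ↪ K) :=
      ⟨(Fin.valEmbedding).trans (Infinite.natEmbedding K)⟩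
    let c : CoeffIdx (2 * k + 1) (fun _ : Fin 2 => 1) → K := fun z =>
      if h : ∃ m, z = idx 1 m then f h.choose else 1
    have h1 : (fun m => c (idx 0 m)) = fun _ => (1 : K) := by
      funext m
      have : ¬ ∃ m', idx 0 m = idx 1 m' := by
        rintro ⟨m', h⟩
        exact absurd (hidx _ _ _ _ h).1 (by decide)
      exact dif_neg this
    have h2 : (fun m => c (idx 1 m)) = f := by
      funext m
      have hex : ∃ m', idx 1 m = idx 1 m' := ⟨m, rfl⟩
      have h3 : c (idx 1 m) = f hex.choose := dif_pos hex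
      rw [h3, ← (hidx _ _ _ _ hex.choose_spec).2]
    have h3 := hH c
    rw [h0, map_zero, h1, h2] at h3
    exact g_ne_zero k f f.injective h3.symm
  have hPH : P * H ≠ 0 := mul_ne_zero hP hH0
  obtain ⟨c, hcc⟩ : ∃ c, eval c (P * H) ≠ 0 := by
    by_contra hcon
    push Not at hcon
    exact hPH (MvPolynomial.funext fun c => by rw [hcon c, map_zero])
  rw [map_mul] at hcc
  have hc1 : eval c P ≠ 0 := left_ne_zero_of_mul hcc
  have hc2 := right_ne_zero_of_mul hcc
  rw [hH] at hc2
  have h1 := hc c hc1 k
  have h2 : truncCoeff (expected (2 * k + 1) (fun _ : Fin 2 => 1)) k = 0 := by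
    rw [truncCoeff, if_neg]
    intro hall
    have := hall k le_rfl
    have := expected_nonpos k hk
    omega
  rw [h2] at h1
  have h3 : 0 < hilb (idealOf c) k := by
    have h4 := hilb_pos (idealOf c) (g k (fun m => c (idx 0 m)) (fun m => c (idx 1 m))) ?_
      (T0 k) hc2
    · rwa [card_T0] at h4
    · refine sup_le (sqIdeal_le _) ?_
      rw [Ideal.span_le]
      rintro _ ⟨i, rfl⟩
      have hform : form c i = ∑ m, C (c (idx i m)) * X m := by
        rw [form]
        symm
        refine Fintype.sum_bijective (fun m : Fin (2 * k + 1) =>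
          (⟨{m}, Finset.card_singleton m⟩ : {T : Finset (Fin (2 * k + 1)) // T.card = 1}))
          ⟨?_, ?_⟩ _ _ ?_
        · intro m m' h
          exact Finset.singleton_injective (congrArg Subtype.val h)
        · rintro ⟨T, hT⟩
          obtain ⟨m, rfl⟩ := Finset.card_eq_one.1 hT
          exact ⟨m, rfl⟩
        · intro m
          show _ = C (c (idx i m)) * (∏ j ∈ {m}, X j)
          rw [Finset.prod_singleton]
      rw [hform]
      apply linear_mem
      intro U
      fin_cases i
      · exact relation k Fin.castSucc _ _ _ (fun m j => a_mul_w k _ _ m j) U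
      · exact relation k Fin.succ _ _ _ (fun m j => b_mul_w k _ _ m j) U
  omega

end Pool.Agent.Results.MP_3acc10_al.TwoLinearForms
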